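import Pool.Agent.Helper86.TC8.Defs

/-!
Large girth cubic graphs are 4-total-colourable: module statements.
Blueprint: /team-store/tc8_blueprint.md
-/

set_option autoImplicit false

namespace Pool.Agent.Helper86.TC8

open Finset
open scoped Classical

variable {V : Type}

/-! ### A. probability and the local lemma -/

/-- local lemma for events with explored sets -/
def ST_LLLA : Prop :=
  ∀ (ι J : Type) [Fintype ι] [Fintype J] (E : J → (ι → Bool) → Prop)
    (X : J → (ι → Bool) → Finset ι) (M : ℕ), 1 ≤ M →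
    (∀ j ω ω', E j ω → (∀ i ∈ X j ω, ω i = ω' i) → E j ω' ∧ X j ω' = X j ω) →
    (∀ j ω, E j ω → (X j ω).card ≤ M ∧ (X j ω).Nonempty) →
    (∀ i, ∑ j, pr (fun ω => E j ω ∧ i ∈ X j ω) ≤ 1 / (6 * M)) →
    ∃ ω, ∀ j, ¬ E j ω

/-- basic rules for `pr` -/
def ST_PR : Prop :=
  ∀ (ι : Type) [Fintype ι],
    (∀ A B : (ι → Bool) → Prop, (∀ ω, A ω → B ω) → pr A ≤ pr B) ∧
    (∀ A : (ι → Bool) → Prop, 0 ≤ pr A ∧ pr A ≤ 1) ∧
    (∀ (κ : Type) (F : Finset κ) (A : (ι → Bool) → Prop) (B : κ → (ι → Bool) → Prop),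
      (∀ ω, A ω → ∃ k ∈ F, B k ω) → pr A ≤ ∑ k ∈ F, pr (B k)) ∧
    (∀ (F : List (ι × Bool)), (F.map Prod.fst).Nodup →
      pr (fun ω : ι → Bool => ∀ e ∈ F, ω e.1 = e.2) = (1 / 2) ^ F.length) ∧
    (∀ (D D' : Finset ι) (A B : (ι → Bool) → Prop), Disjoint D D' →
      (∀ ω ω', (∀ i ∈ D, ω i = ω' i) → (A ω ↔ A ω')) →
      (∀ ω ω', (∀ i ∈ D', ω i = ω' i) → (B ω ↔ B ω')) →
      pr (fun ω => A ω ∧ B ω) = pr A * pr B)

/-- source bits at distinct sources are fair given the phases -/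
def ST_PROD : Prop :=
  ∀ (V : Type) [Fintype V] (m : ℕ) (A : (V → Bool) → Prop) (src : (V → Bool) → Fin m → WS V)
    (v : (V → Bool) → Fin m → Bool), (∀ p, A p → Function.Injective (src p)) →
    pr (fun ω : Idx V → Bool => A (ph ω) ∧ ∀ k, sb ω (src (ph ω) k).1 (src (ph ω) k).2 = v (ph ω) k)
      ≤ (1 / 2) ^ m * pr (fun ω : Idx V → Bool => A (ph ω))

/-! ### B. the finite model -/

/-- a set which becomes full together with a full one -/
def InH (A : Finset Pr) : Prop := comb A full = full ∧ comb full A = full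

/-- a set which gets into `H` together with a full one -/
def InG (A : Finset Pr) : Prop := InH (comb A full) ∧ InH (comb full A)

/-- probability of being outside `H` -/
noncomputable def pnH (d : ℕ) (a : L) (st : St) : ℝ :=
  1 - lawE d a st (fun X => if InH X then 1 else 0)

/-- probability of being outside `G` -/
noncomputable def pnG (d : ℕ) (a : L) (st : St) : ℝ :=
  1 - lawE d a st (fun X => if InG X then 1 else 0)

/-- finite facts about colours and rules -/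
def ST_COL : Prop :=
  (∀ c x y, nxt c x y = true → ecol c x = ecol c.inv y ∧ vcol x ≠ vcol y) ∧
  (∀ c x, ecol c x ≠ vcol x) ∧ (∀ c c' x, c ≠ c' → ecol c x ≠ ecol c' x) ∧
  (∀ c x y, nxt c x y = nxt c.inv y x) ∧
  (∀ c x, ∑ y, kw c x y = 1) ∧ (∀ c x y, 0 ≤ kw c x y) ∧
  (∀ c x y, kw c x y ≠ 0 ↔ nxt c x y = true)

/-- facts about `comb` -/
def ST_COMB : Prop :=
  (∀ X X' Y Y' : Finset Pr, X ⊆ X' → Y ⊆ Y' → comb X Y ⊆ comb X' Y') ∧
  (∀ X Y : Finset Pr, comb X Y ⊆ full) ∧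
  (∀ X : Finset Pr, (X ∩ full).Nonempty → InG (comb full X) ∧ InG (comb X full)) ∧
  (∀ X Y : Finset Pr, X ⊆ Y → (InH X → InH Y) ∧ (InG X → InG Y)) ∧
  (∀ X : Finset Pr, InH X → InG X) ∧ InH full ∧
  (∀ a st x y, nxt (k1 a) st x = true → nxt (k2 a) st y = true →
    pair a st ∈ comb {pair (k1 a) x} {pair (k2 a) y}) ∧
  (∀ a st, pair a st ∈ full)

/-- the numerical certificate -/
def ST_BASE : Prop := ∀ a st, pfail 16 a st ≤ 0.02 ∧ pnH 16 a st ≤ 0.001

/-- the recursion -/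
def ST_REC : Prop :=
  ∀ (d : ℕ) (u w v : ℝ), 0 ≤ u → 0 ≤ w → 0 ≤ v → (∀ a st, pfail d a st ≤ u) →
    (∀ a st, pnH d a st ≤ w) → (∀ a st, pnG d a st ≤ v) →
    ∀ a st, pfail (d + 1) a st ≤ u ^ 2 + 2 * w ∧ pnH (d + 1) a st ≤ u ^ 2 + 2 * v ∧
      pnG (d + 1) a st ≤ u ^ 2

/-- decay -/
def ST_DEC : Prop := ∀ a st, pfail 64 a st ≤ (1 / 2 : ℝ) ^ 100000

/-- sum over trees = model expectation -/
def ST_LAWT : Prop :=
  ∀ (d : ℕ) (a : L) (st : St) (M : Finset Pr → ℝ),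
    ∑ t : Tr d, (if root d t = st then wtr d a t * M (feas d a t) else 0) = lawE d a st M

/-! ### C. repair of the centres -/

/-- natural states plus full branches give a total colouring -/
def ST_EXT : Prop :=
  ∀ (V : Type) (G : CG V) (Z : V → Bool) (nt : V → St) (R : ℕ), Free G (4 * R + 20) →
    (∀ z w, Z z = true → Red w → w ≠ [] → w.length ≤ 2 * R + 4 → Z (act G w z) = false) →
    (∀ c x, Z x = false → Z (act1 G c x) = false → nxt c (nt x) (nt (act1 G c x)) = true) →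
    (∀ z a, Z z = true → feas R a (rd G nt R a (act1 G a z)) = full) → HasTC G

/-! ### D. lines and sides -/

/-- relations between sides and statuses -/
def ST_REL : Prop :=
  ∀ (V : Type) (C : Ctx V) (R D0 D1 : ℕ), Hyp C R D0 D1 → ∀ (p : V → Bool) (x : V), C.Z x = false →
    (C.Z (C.G.nu x) = false → sd C p (C.G.nu x) = !sd C p x) ∧
    (C.Z (C.G.bw x) = false → sd C p (C.G.bw x) = (sd C p x ^^ ps C p x)) ∧
    (C.Z (C.G.nu x) = false → C.Z (C.G.bw (C.G.nu x)) = false →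
      sd C p (C.G.bw (C.G.nu x)) = (sd C p x ^^ ps C p x)) ∧
    (C.Z (C.G.nu x) = false → ps C p (C.G.nu x) = !ps C p x)

/-- same segment, same canonical word -/
def ST_CAN : Prop :=
  ∀ (V : Type) (C : Ctx V) (R D0 D1 : ℕ), Hyp C R D0 D1 → ∀ (x : V) (W W' : List L),
    Red W → Red W' → W.length ≤ 2 * C.LF + R + 20 → W'.length ≤ 2 * C.LF + R + 20 →
    (rep C (act C.G W x)).1 = (rep C (act C.G W' x)).1 → can W = can W'

/-- segments are short -/
def ST_SEG : Prop :=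
  ∀ (V : Type) [Fintype V] (C : Ctx V) (R D0 D1 : ℕ), Hyp C R D0 D1 → ∀ v : V,
    (univ.filter fun y => (rep C y).1 = v).card ≤ 2 * (C.K + 1)

/-- sides in distinct segments are independent -/
def ST_CYL : Prop :=
  ∀ (V : Type) [Fintype V] (C : Ctx V) (R D0 D1 : ℕ), Hyp C R D0 D1 → ∀ (x : V)
    (F : List (List L × Bool)), (∀ e ∈ F, Red e.1 ∧ e.1.length ≤ 2 * C.LF + R + 20) →
    (F.map fun e => can e.1).Nodup →
    pr (fun ω : Idx V → Bool => ∀ e ∈ F, sd C (ph ω) (act C.G e.1 x) = e.2) ≤ (1 / 2) ^ F.length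

/-! ### E. walkers -/

/-- the natural rules -/
def ST_NATR : Prop :=
  ∀ (V : Type) (C : Ctx V) (R D0 D1 : ℕ), Hyp C R D0 D1 → ∀ (ω : Idx V → Bool) (c : L) (x : V),
    C.Z x = false → C.Z (act1 C.G c x) = false →
    (∀ t, Stops C.G C.Z (PP C ω) C.LF (t, x)) →
    (∀ t, Stops C.G C.Z (PP C ω) C.LF (t, act1 C.G c x)) →
    nxt c (nat C ω x) (nat C ω (act1 C.G c x)) = true

/-- `i` is touched at `x` -/
def Tch (C : Ctx V) (i : Idx V) (x : V) : Prop :=
  i ∈ rdV C x ∨ (∃ t, i = (some t, x)) ∨ (∃ t, i = (some t, C.G.nu x))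

/-- basics of lists, followers and explored sets -/
def ST_FOL : Prop :=
  (∀ (k : ℕ) (l : List Bool), l ∈ bl k ↔ l.length = k) ∧ (∀ k : ℕ, (bl k).card = 2 ^ k) ∧
  ∀ (V : Type) (C : Ctx V) (P : V → Bool),
    (∀ (l : List Bool) (h : WS V), C.Z h.2 = false → follows C.G C.Z P l h → avoidF C.G C.Z l h) ∧
    (∀ (k : ℕ) (h : WS V), ¬ Stops C.G C.Z P k h ↔ ∃ l ∈ bl k, follows C.G C.Z P l h) ∧
    (∀ (l l' : List Bool) (h : WS V), follows C.G C.Z P (l ++ l') h ↔
      follows C.G C.Z P l h ∧ follows C.G C.Z P l' (walkF C.G l h)) ∧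
    (∀ (k : ℕ) (h : WS V) (i : Idx V), i ∈ rdW C P k h → ∃ l : List Bool, l.length < k ∧
      follows C.G C.Z P l h ∧ Tch C i (walkF C.G l h).2)

/-- few vertices touch a given index -/
def ST_TCH : Prop :=
  ∀ (V : Type) [Fintype V] (C : Ctx V) (R D0 D1 : ℕ), Hyp C R D0 D1 → ∀ i : Idx V,
    (univ.filter fun x => Tch C i x).card ≤ 6 * (C.K + 1) + 2

/-- locality of the bad events -/
def ST_LOC : Prop :=
  ∀ (V : Type) [Fintype V] (C : Ctx V), 1 ≤ C.LF →
    (∀ (h : WS V) (ω ω' : Idx V → Bool), E2 C h ω → (∀ i ∈ X2 C h ω, ω i = ω' i) →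
      E2 C h ω' ∧ X2 C h ω' = X2 C h ω) ∧
    (∀ (R : ℕ) (z : V) (a : L) (ω ω' : Idx V → Bool), E3 C R z a ω →
      (∀ i ∈ X3 C R z a ω, ω i = ω' i) → E3 C R z a ω' ∧ X3 C R z a ω' = X3 C R z a ω) ∧
    (∀ (h : WS V) (ω : Idx V → Bool), (X2 C h ω).Nonempty ∧ (X2 C h ω).card ≤ 3 * C.LF + 1) ∧
    (∀ (R : ℕ) (z : V) (a : L) (ω : Idx V → Bool), (X3 C R z a ω).Nonempty ∧
      (X3 C R z a ω).card ≤ 2 ^ (R + 2) * (3 * C.LF + 4))

/-- probability of a path of a walker -/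
def ST_E2P : Prop :=
  ∀ (V : Type) [Fintype V] (C : Ctx V) (R D0 D1 : ℕ), Hyp C R D0 D1 → ∀ (l : List Bool) (h : WS V),
    C.Z h.2 = false → l.length ≤ C.LF + 2 →
    pr (fun ω : Idx V → Bool => follows C.G C.Z (PP C ω) l h) ≤ (1 / 2) ^ l.length

/-! ### F. the branch at a centre -/

/-- sides and statuses on the branch agree with the tree -/
def mtch (G : CG V) (s P : V → Bool) : (d : ℕ) → L → V → Tr d → Prop
  | 0, _, x, t => s x = (root 0 t).s ∧ P x = (root 0 t).P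
  | d + 1, a, x, t => s x = (root (d + 1) t).s ∧ P x = (root (d + 1) t).P ∧
      mtch G s P d (k1 a) (act1 G (k1 a) x) t.2.1 ∧ mtch G s P d (k2 a) (act1 G (k2 a) x) t.2.2

/-- fresh segment of the child with state `st` reached by `c` from the vertex with word `W` -/
def nodeF (c : L) (W : List L) (st : St) : List (List L × Bool) :=
  match c with
  | .b => [(.b :: .b :: W, st.s ^^ st.P)]
  | .f => [(.f :: W, st.s)]
  | .n => []

/-- fresh segments strictly below the root (which has word `W`) -/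
def fresh : (d : ℕ) → L → List L → Tr d → List (List L × Bool)
  | 0, _, _, _ => []
  | d + 1, a, W, t => (nodeF (k1 a) W (root d t.2.1) ++ fresh d (k1 a) (k1 a :: W) t.2.1) ++
      (nodeF (k2 a) W (root d t.2.2) ++ fresh d (k2 a) (k2 a :: W) t.2.2)

/-- fresh segments of the root -/
def rootF (a : L) (st : St) : List (List L × Bool) :=
  [([a], st.s), (if a = .f then [.b, .n, .f] else [.b, a], st.s ^^ st.P)]

/-- all fresh segments of the branch reached by `a` from the centre, with the side they must have -/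
def freshAll (d : ℕ) (a : L) (t : Tr d) : List (List L × Bool) :=
  rootF a (root d t) ++ fresh d a [a] t

/-- free walker states of a leaf, with their values -/
def leafFree (a : L) (W : List L) (st : St) : List (Bool × List L × Bool) :=
  match a with
  | .b => [(false, W, st.m), (true, W, st.B)]
  | .n => if st.P then [(false, W, st.m)] else [(false, W, st.m), (true, W, st.B)]
  | .f => if st.P then [(true, W, st.B)] else []

/-- free walker states at the leaves -/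
def freeL : (d : ℕ) → L → List L → Tr d → List (Bool × List L × Bool)
  | 0, a, W, t => leafFree a W t
  | d + 1, a, W, t => freeL d (k1 a) (k1 a :: W) t.2.1 ++ freeL d (k2 a) (k2 a :: W) t.2.2

/-- free walker states of the root (walkers which stop at the centre) -/
def rootFree (a : L) (st : St) : List (Bool × List L × Bool) :=
  match a with
  | .b => []
  | .n => if st.P then [(true, [.n], st.B)] else []
  | .f => if st.P then [(false, [.f], st.m)] else [(false, [.f], st.m), (true, [.f], st.B)]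

/-- all free walker states of the branch, with their values -/
def freeAll (d : ℕ) (a : L) (t : Tr d) : List (Bool × List L × Bool) :=
  rootFree a (root d t) ++ freeL d a [a] t

/-- the fresh segments are determined by the tree -/
def ST_FRV : Prop :=
  ∀ (V : Type) (C : Ctx V) (R D0 D1 : ℕ), Hyp C R D0 D1 → ∀ (z : V) (a : L) (t : Tr R)
    (p : V → Bool), C.Z z = true → mtch C.G (sd C p) (ps C p) R a (act1 C.G a z) t →
    ∀ e ∈ freshAll R a t, sd C p (act C.G e.1 z) = e.2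

/-- combinatorics of the fresh words -/
def ST_FRW : Prop :=
  ∀ (R : ℕ) (a : L) (t : Tr R), ((freshAll R a t).map fun e => can e.1).Nodup ∧
    ∀ e ∈ freshAll R a t, Red e.1 ∧ e.1.length ≤ R + 3 ∧ (can e.1).length ≤ R + 3

/-- words of a path of a walker which starts in the branch -/
def ST_PTH : Prop :=
  ∀ (V : Type) (G : CG V) (Z : V → Bool) (z : V) (W0 : List L) (t0 : Bool) (l : List Bool),
    Z z = true → Red W0 → avoidF G Z l (t0, act G W0 z) →
    ∃ (t1 : Bool) (W1 : List L), walkF G l (t0, act G W0 z) = (t1, act G W1 z) ∧ Red W1 ∧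
      W1.length ≤ W0.length + 2 * l.length ∧
      (W0.length ≤ l.length → (∃ W', W1 = .b :: W') ∧ l.length ≤ W1.length + W0.length)

/-- words of a walker which moves away: the visited vertices are in distinct segments -/
def ST_PTC : Prop :=
  ∀ (V : Type) (G : CG V) (x : V) (W0 : List L) (t0 : Bool) (l : List Bool),
    Red (.b :: W0) → (∀ W', W0 ≠ .n :: W') →
    ∃ F : List (List L), F.length = l.length ∧
      (∀ k < l.length, ∃ t1 : Bool, walkF G (l.take (k + 1)) (t0, act G W0 x) =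
        (t1, act G (F.getD k []) x)) ∧
      (∀ w ∈ F, Red w ∧ w.length ≤ W0.length + 2 * l.length ∧ W0.length < (can w).length) ∧
      (F.map can).Nodup

/-- (STAR, part A) sides of the branch together with the statuses of a walker -/
def ST_SIDEP : Prop :=
  ∀ (V : Type) [Fintype V] (C : Ctx V) (R D0 D1 : ℕ), Hyp C R D0 D1 → ∀ (z : V) (a : L) (t : Tr R)
    (y : V) (t0 : Bool) (l : List Bool), C.Z z = true → y ∈ br C.G R a (act1 C.G a z) →
    l.length ≤ C.LF + 1 →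
    pr (fun ω : Idx V → Bool => mtch C.G (sd C (ph ω)) (PP C ω) R a (act1 C.G a z) t ∧
      follows C.G C.Z (PP C ω) l (t0, y))
      ≤ 2 ^ (2 * R + 8) * (1 / 2) ^ l.length * (1 / 2) ^ (freshAll R a t).length

/-- end of a walker and parity of the number of steps -/
def srcW (G : CG V) (Z : V → Bool) (P : V → Bool) : ℕ → WS V → WS V × Bool
  | 0, h => (h, false)
  | k + 1, h => match stepW G Z P h with
    | .inl h' => (h', false)
    | .inr h' => ((srcW G Z P k h').1, !(srcW G Z P k h').2)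

/-- the free states have distinct sources -/
def ST_SRC : Prop :=
  ∀ (V : Type) (C : Ctx V) (R D0 D1 : ℕ), Hyp C R D0 D1 → ∀ (z : V) (a : L) (t : Tr R)
    (s P : V → Bool), C.Z z = true → mtch C.G s P R a (act1 C.G a z) t →
    (∀ y ∈ br C.G R a (act1 C.G a z), ∀ t0, Stops C.G C.Z P C.LF (t0, y)) →
    ((freeAll R a t).map fun e =>
      (srcW C.G C.Z P (C.LF + 1) (e.1, act C.G e.2.1 z)).1).Nodup

/-- (STAR, part B) the bits at the free states -/
def ST_BITSP : Prop :=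
  ∀ (V : Type) [Fintype V] (C : Ctx V) (R D0 D1 : ℕ), Hyp C R D0 D1 → ∀ (z : V) (a : L) (t : Tr R)
    (A : (V → Bool) → Prop), C.Z z = true →
    (∀ p, A p → mtch C.G (sd C p) (ps C p) R a (act1 C.G a z) t ∧
      ∀ y ∈ br C.G R a (act1 C.G a z), ∀ t0, Stops C.G C.Z (ps C p) C.LF (t0, y)) →
    pr (fun ω : Idx V → Bool => A (ph ω) ∧ rd C.G (nat C ω) R a (act1 C.G a z) = t)
      ≤ (1 / 2) ^ (freeAll R a t).length * pr (fun ω : Idx V → Bool => A (ph ω))

/-- (STAR, part C) counting the random bits of a tree -/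
def ST_CNTID : Prop :=
  ∀ (R : ℕ) (a : L) (t : Tr R), wtr R a t ≠ 0 →
    (1 / 2 : ℝ) ^ (freshAll R a t).length * (1 / 2) ^ (freeAll R a t).length = 1 / 16 * wtr R a t

/-- (STAR) -/
def ST_STAR : Prop :=
  ∀ (V : Type) [Fintype V] (C : Ctx V) (R D0 D1 : ℕ), Hyp C R D0 D1 → ∀ (z : V) (a : L) (t : Tr R)
    (y : V) (t0 : Bool) (l : List Bool), C.Z z = true → y ∈ br C.G R a (act1 C.G a z) →
    l.length ≤ C.LF + 1 →
    pr (fun ω : Idx V → Bool => rd C.G (nat C ω) R a (act1 C.G a z) = t ∧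
      StopBr C R a (act1 C.G a z) ω ∧ follows C.G C.Z (PP C ω) l (t0, y))
      ≤ 2 ^ (2 * R + 8) * (1 / 2) ^ l.length * (1 / 16 * wtr R a t)

/-- probability of the bad event of a centre together with a path -/
def ST_E3P : Prop :=
  ∀ (V : Type) [Fintype V] (C : Ctx V) (R D0 D1 : ℕ), Hyp C R D0 D1 → ∀ (z : V) (a : L) (u : ℝ)
    (y : V) (t0 : Bool) (l : List Bool), y ∈ br C.G R a (act1 C.G a z) →
    l.length ≤ C.LF + 1 → (∀ st, pfail R a st ≤ u) →
    pr (fun ω : Idx V → Bool => E3 C R z a ω ∧ follows C.G C.Z (PP C ω) l (t0, y))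
      ≤ 2 ^ (2 * R + 8) * (1 / 2) ^ l.length * u

/-! ### G. counting and summation -/

/-- two-sided count of the paths which avoid `Z` -/
def ST_CNT : Prop :=
  ∀ (V : Type) [Fintype V] (G : CG V) (Z : V → Bool) (D1 : ℕ), 1 ≤ D1 →
    (∀ h : WS V, ∃ l : List Bool, l.length = D1 ∧ ¬ avoidF G Z l h) →
    (∀ h : WS V, ∃ l : List Bool, l.length = D1 ∧ ¬ avoidB G Z l h) →
    ∀ (h : WS V) (k n : ℕ), k ≤ n →
    (((univ ×ˢ bl n).filter fun q : WS V × List Bool =>
      avoidF G Z q.2 q.1 ∧ walkF G (q.2.take k) q.1 = h).card : ℝ)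
      ≤ 2 ^ n * (1 - 1 / 2 ^ D1) ^ (k / D1 + (n - k) / D1)

/-- all paths -/
def ST_CNT0 : Prop :=
  ∀ (V : Type) [Fintype V] (G : CG V) (h : WS V) (k : ℕ),
    ((univ ×ˢ bl k).filter fun q : WS V × List Bool => walkF G q.2 q.1 = h).card = 2 ^ k

/-- few branches contain a given vertex; branches are small -/
def ST_NBR : Prop :=
  ∀ (V : Type) [Fintype V] (G : CG V) (R : ℕ),
    (∀ y : V, (univ.filter fun q : V × L => y ∈ br G R q.2 (act1 G q.2 q.1)).card ≤ 2 ^ (R + 3)) ∧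
    (∀ a x, (br G R a x).card ≤ 2 ^ (R + 1))

/-- the sum for the walkers -/
def ST_SUM2 : Prop :=
  ∀ (V : Type) [Fintype V] (C : Ctx V) (R D0 D1 : ℕ), Hyp C R D0 D1 → ∀ i : Idx V,
    ∑ h : WS V, pr (fun ω => E2 C h ω ∧ i ∈ X2 C h ω)
      ≤ C.LF * (2 * (6 * (C.K + 1) + 2)) * (1 - 1 / 2 ^ D1) ^ (C.LF / D1 - 2)

/-- the sum for the centres -/
def ST_SUM3 : Prop :=
  ∀ (V : Type) [Fintype V] (C : Ctx V) (R D0 D1 : ℕ), Hyp C R D0 D1 → ∀ (u : ℝ), 0 ≤ u →
    (∀ a st, pfail R a st ≤ u) → ∀ i : Idx V,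
    ∑ q : V × L, pr (fun ω => E3 C R q.1 q.2 ω ∧ i ∈ X3 C R q.1 q.2 ω)
      ≤ 2 ^ (R + 3) * ((C.LF + 1) * (2 ^ (2 * R + 8) * u * (2 * (6 * (C.K + 1) + 2))))

/-- the core -/
def ST_CORE : Prop :=
  ∀ (V : Type) [Fintype V] (C : Ctx V) (R D0 D1 : ℕ), Hyp C R D0 D1 → ∀ (u : ℝ), 0 ≤ u →
    (∀ a st, pfail R a st ≤ u) →
    ((C.LF : ℝ) * (2 * (6 * (C.K + 1) + 2)) * (1 - 1 / 2 ^ D1) ^ (C.LF / D1 - 2) +
      2 ^ (R + 3) * ((C.LF + 1) * (2 ^ (2 * R + 8) * u * (2 * (6 * (C.K + 1) + 2))))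
      ≤ 1 / (6 * (2 ^ (R + 2) * (3 * C.LF + 4) : ℕ))) →
    HasTC C.G

/-! ### H. existence of the centres -/

/-- centres exist -/
def ST_STA : Prop :=
  ∀ (D0 j : ℕ), 1 ≤ D0 →
    (24 : ℝ) * 2 ^ (2 * j + 2 * D0 + 4) * (D0 + 3) * (1 - 1 / 2 ^ (D0 + 4)) ^ (2 ^ j) ≤ 1 →
    ∀ (V : Type) [Fintype V] (G : CG V),
    Free G (8 * (D0 + 3) * 2 ^ j + 4 * j * (D0 + 3) + 8 * D0 + 100) →
    ∃ Z : V → Bool,
      (∀ z w, Z z = true → Red w → w ≠ [] → w.length ≤ D0 → Z (act G w z) = false) ∧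
      (∀ h : WS V, ∃ l : List Bool, l.length = j * (D0 + 3) + 1 ∧ ¬ avoidF G Z l h) ∧
      (∀ h : WS V, ∃ l : List Bool, l.length = j * (D0 + 3) + 1 ∧ ¬ avoidB G Z l h) ∧
      (∀ (β : Bool) (x : V), Ends G Z (2 * (D0 + 3) * 2 ^ j) β x)

/-! ### I. the model theorem -/

/-- numbers exist -/
def ST_NUM : Prop :=
  (24 : ℝ) * 2 ^ (2 * 150 + 2 * 136 + 4) * (136 + 3) * (1 - 1 / 2 ^ (136 + 4)) ^ (2 ^ 150) ≤ 1 ∧
  ∃ LF : ℕ, 2 * 64 + 10 ≤ LF ∧
    ((LF : ℝ) * (2 * (6 * ((2 * 139 * 2 ^ 150 : ℕ) + 1) + 2)) *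
        (1 - 1 / 2 ^ (150 * 139 + 1)) ^ (LF / (150 * 139 + 1) - 2) +
      2 ^ (64 + 3) * ((LF + 1) * (2 ^ (2 * 64 + 8) * (1 / 2) ^ 100000 *
        (2 * (6 * ((2 * 139 * 2 ^ 150 : ℕ) + 1) + 2))))
      ≤ 1 / (6 * (2 ^ (64 + 2) * (3 * LF + 4) : ℕ)))

/-- large girth theorem for the model -/
def ST_MAIN1 : Prop := ∃ g : ℕ, ∀ (V : Type) [Fintype V] (G : CG V), Free G g → HasTC G

/-! ### J. graphs -/

/-- total 4-colourings of a simple graph -/
def TC4 {V : Type} (G : SimpleGraph V) : Prop :=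
  ∃ (c : V → Fin 4) (d : V → V → Fin 4),
    (∀ u v : V, G.Adj u v → d u v = d v u) ∧
    (∀ u v : V, G.Adj u v → c u ≠ c v) ∧
    (∀ u v w : V, G.Adj u v → G.Adj u w → v ≠ w → d u v ≠ d u w) ∧
    (∀ u v : V, G.Adj u v → d u v ≠ c u)

/-- every vertex has exactly `k` neighbours -/
def Reg {V : Type} (G : SimpleGraph V) (k : ℕ) : Prop := ∀ v, Set.ncard (G.neighborSet v) = k

/-- all cycles have length at least `g` -/
def GirthGe {V : Type} (G : SimpleGraph V) (g : ℕ) : Prop :=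
  ∀ (u : V) (p : G.Walk u u), p.IsCycle → g ≤ p.length

/-- orientation of a 2-regular graph -/
def ST_ORI : Prop :=
  ∀ (V : Type) [Finite V] (H : SimpleGraph V), Reg H 2 →
    ∃ fw bw : V → V, (∀ x, fw (bw x) = x) ∧ (∀ x, bw (fw x) = x) ∧
      (∀ x y, H.Adj x y ↔ y = fw x ∨ y = bw x) ∧ (∀ x, fw x ≠ bw x)

/-- girth gives freeness -/
def ST_GFREE : Prop :=
  ∀ (V : Type) [Finite V] (G : SimpleGraph V) (X : CG V) (g : ℕ),
    (∀ c x, G.Adj x (act1 X c x)) → (∀ x, X.nu x ≠ X.fw x ∧ X.nu x ≠ X.bw x ∧ X.fw x ≠ X.bw x) →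
    GirthGe G (g + 1) → Free X g

/-- cubic graphs with a perfect matching -/
def ST_PMG : Prop :=
  ∃ g : ℕ, ∀ (V : Type) [Finite V] (G : SimpleGraph V), Reg G 3 → GirthGe G g →
    (∃ M : G.Subgraph, M.IsPerfectMatching) → TC4 G

/-- the hypothesis of the gluing step -/
def PMH (g : ℕ) : Prop :=
  ∀ (V : Type) [Finite V] (G : SimpleGraph V), Reg G 3 → GirthGe G g →
    (∃ M : G.Subgraph, M.IsPerfectMatching) → TC4 G

/-- subcubic graphs with a matching which covers all vertices of degree 3 (gluing of copies) -/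
def ST_GLUE : Prop :=
  ∀ g : ℕ, 3 ≤ g → PMH g → ∀ (V : Type) [Finite V] (G : SimpleGraph V),
    (∀ v, Set.ncard (G.neighborSet v) ≤ 3) → GirthGe G g →
    ∀ M : SimpleGraph V, M ≤ G → (∀ v a b, M.Adj v a → M.Adj v b → a = b) →
    (∀ v, Set.ncard (G.neighborSet v) = 3 → ∃ w, M.Adj v w) → TC4 G

/-- the graph without its bridges -/
def noBr (G : SimpleGraph V) : SimpleGraph V where
  Adj a b := G.Adj a b ∧ ¬ G.IsBridge s(a, b)
  symm := ⟨fun _ _ h => ⟨h.1.symm, by rw [Sym2.eq_swap]; exact h.2⟩⟩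
  loopless := ⟨fun _ h => h.1.ne rfl⟩

/-- Tutte: a matching of `noBr G` covering all vertices of degree 3 of `noBr G` -/
def ST_MAT0 : Prop :=
  ∀ (V : Type) [Finite V] (G : SimpleGraph V), Reg G 3 →
    ∃ M : SimpleGraph V, M ≤ noBr G ∧ (∀ v a b, M.Adj v a → M.Adj v b → a = b) ∧
      ∀ v, Set.ncard ((noBr G).neighborSet v) = 3 → ∃ w, M.Adj v w

/-- bridges can be inserted -/
def ST_BRI : Prop :=
  ∀ (V : Type) [Finite V] (G : SimpleGraph V), (∀ v, Set.ncard (G.neighborSet v) ≤ 3) →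
    TC4 (noBr G) → TC4 G

/-- the theorem -/
def ST_FINAL : Prop :=
  ∃ g : ℕ, ∀ (V : Type) [Finite V] (G : SimpleGraph V), Reg G 3 → GirthGe G g → TC4 G

end Pool.Agent.Helper86.TC8
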