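import Pool.Agent.Helper86.TC8.Defs

/-!
Large girth cubic graphs are 4-total-colourable: common lemmas on words, `Free`, branches.
-/

set_option autoImplicit false

namespace Pool.Agent.Helper86.TC8

open Finset
open scoped Classical

variable {V : Type}

/-! ### letters -/

@[simp] theorem L.inv_inv (c : L) : c.inv.inv = c := by cases c <;> rfl

theorem L.inv_inj {a c : L} (h : a.inv = c.inv) : a = c := by
  rw [← L.inv_inv a, h, L.inv_inv]

theorem k1_ne_inv (a : L) : k1 a ≠ a.inv := by cases a <;> decide

theorem k2_ne_inv (a : L) : k2 a ≠ a.inv := by cases a <;> decide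

theorem k1_ne_k2 (a : L) : k1 a ≠ k2 a := by cases a <;> decide

/-- the three directions at a vertex reached by `a`: the parent and the two children -/
theorem letter_cases (a c : L) : c = a.inv ∨ c = k1 a ∨ c = k2 a := by
  cases a <;> cases c <;> simp [L.inv, k1, k2]

theorem act1_inv (G : CG V) (c : L) (x : V) : act1 G c.inv (act1 G c x) = x := by
  cases c
  · exact G.nu_nu x
  · exact G.fw_bw x
  · exact G.bw_fw x

theorem act1_inv' (G : CG V) (c : L) (x : V) : act1 G c (act1 G c.inv x) = x := by
  have := act1_inv G c.inv x
  rwa [L.inv_inv] at this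

theorem act1_inj (G : CG V) (c : L) : Function.Injective (act1 G c) := by
  intro x y h
  rw [← act1_inv G c x, h, act1_inv]

theorem act1_bij (G : CG V) (c : L) : Function.Bijective (act1 G c) :=
  ⟨act1_inj G c, fun y => ⟨act1 G c.inv y, act1_inv' G c y⟩⟩

@[simp] theorem act_nil (G : CG V) (x : V) : act G [] x = x := rfl

@[simp] theorem act_cons (G : CG V) (a : L) (w : List L) (x : V) :
    act G (a :: w) x = act1 G a (act G w x) := rfl

theorem act_append (G : CG V) (u w : List L) (x : V) :
    act G (u ++ w) x = act G u (act G w x) := by
  induction u with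
  | nil => rfl
  | cons a u ih => simp [ih]

theorem act_inj (G : CG V) (w : List L) : Function.Injective (act G w) := by
  induction w with
  | nil => exact fun _ _ h => h
  | cons a w ih => exact fun x y h => ih (act1_inj G a h)

/-! ### reduced words -/

theorem red_cons_cons {a c : L} {w : List L} :
    Red (a :: c :: w) ↔ a ≠ c.inv ∧ Red (c :: w) := Iff.rfl

theorem red_nil : Red [] := trivial

theorem red_single (a : L) : Red [a] := trivial

theorem Red.tail {a : L} {w : List L} (h : Red (a :: w)) : Red w := by
  cases w with
  | nil => trivial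
  | cons c w => exact h.2

theorem Red.of_append_right {u w : List L} (h : Red (u ++ w)) : Red w := by
  induction u with
  | nil => exact h
  | cons a u ih => exact ih h.tail

theorem Red.of_append_left {u w : List L} (h : Red (u ++ w)) : Red u := by
  induction u with
  | nil => trivial
  | cons a u ih =>
    cases u with
    | nil => trivial
    | cons c u => exact ⟨h.1, ih h.2⟩

/-- two reduced words which overlap in one letter can be glued -/
theorem red_glue {u w : List L} {c : L} (h1 : Red (u ++ [c])) (h2 : Red (c :: w)) :
    Red (u ++ c :: w) := by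
  induction u with
  | nil => exact h2
  | cons a u ih =>
    cases u with
    | nil => exact ⟨h1.1, h2⟩
    | cons a' u => exact ⟨h1.1, ih h1.2⟩

/-- prepend a letter and cancel -/
def rc (a : L) : List L → List L
  | [] => [a]
  | c :: w => if a = c.inv then w else a :: c :: w

theorem act_rc (G : CG V) (a : L) (w : List L) (x : V) : act G (rc a w) x = act G (a :: w) x := by
  cases w with
  | nil => rfl
  | cons c w =>
    simp only [rc]
    split
    · rename_i h
      subst h
      simp [act1_inv]
    · rfl

theorem red_rc {a : L} {w : List L} (h : Red w) : Red (rc a w) := by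
  cases w with
  | nil => trivial
  | cons c w =>
    simp only [rc]
    split
    · exact h.tail
    · rename_i hac
      exact ⟨hac, h⟩

theorem length_rc_le (a : L) (w : List L) : (rc a w).length ≤ w.length + 1 := by
  cases w with
  | nil => simp [rc]
  | cons c w =>
    simp only [rc]
    split <;> simp <;> omega

/-- the reduced form of a word -/
def rdc : List L → List L
  | [] => []
  | a :: w => rc a (rdc w)

theorem act_rdc (G : CG V) (w : List L) (x : V) : act G (rdc w) x = act G w x := by
  induction w with
  | nil => rfl
  | cons a w ih => rw [rdc, act_rc, act_cons, ih, act_cons]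

theorem red_rdc (w : List L) : Red (rdc w) := by
  induction w with
  | nil => trivial
  | cons a w ih => exact red_rc ih

theorem length_rdc_le (w : List L) : (rdc w).length ≤ w.length := by
  induction w with
  | nil => simp [rdc]
  | cons a w ih => exact (length_rc_le a (rdc w)).trans (by simpa using ih)

theorem rc_of_red {a : L} {w : List L} (h : Red (a :: w)) : rc a w = a :: w := by
  cases w with
  | nil => rfl
  | cons c w => simp [rc, h.1]

theorem rdc_of_red {w : List L} (h : Red w) : rdc w = w := by
  induction w with
  | nil => rfl
  | cons a w ih => rw [rdc, ih h.tail, rc_of_red h]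

/-- the inverse word -/
def iw (w : List L) : List L := (w.map L.inv).reverse

theorem iw_cons (a : L) (w : List L) : iw (a :: w) = iw w ++ [a.inv] := by simp [iw]

theorem length_iw (w : List L) : (iw w).length = w.length := by simp [iw]

theorem act_iw (G : CG V) (w : List L) (x : V) : act G (iw w) (act G w x) = x := by
  induction w with
  | nil => rfl
  | cons a w ih =>
    rw [iw_cons, act_append]
    simp only [act_cons, act_nil, act1_inv]
    exact ih

theorem red_snoc {u : List L} {c a : L} (h : Red (u ++ [c])) (hca : c ≠ a.inv) :
    Red (u ++ [c, a]) :=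
  red_glue h ⟨hca, trivial⟩

theorem red_iw {w : List L} (h : Red w) : Red (iw w) := by
  induction w with
  | nil => trivial
  | cons a w ih =>
    cases w with
    | nil => trivial
    | cons c w =>
      rw [iw_cons, iw_cons, List.append_assoc]
      refine red_snoc ?_ ?_
      · have := ih h.tail
        rwa [iw_cons] at this
      · intro hh
        apply h.1
        rw [L.inv_inv] at hh
        rw [hh]

/-! ### freeness -/

theorem Free.mono {G : CG V} {g g' : ℕ} (h : Free G g) (hg : g' ≤ g) : Free G g' :=
  fun w h1 h2 h3 => h w h1 h2 (h3.trans hg)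

/-- reduced words with the same action at `x` are equal -/
theorem Free.inj {G : CG V} {g : ℕ} (h : Free G g) {W W' : List L} (hW : Red W) (hW' : Red W')
    (hl : W.length + W'.length ≤ g) {x : V} (he : act G W x = act G W' x) : W = W' := by
  induction W generalizing W' with
  | nil =>
    by_contra hne
    have : W' ≠ [] := fun h => hne h.symm
    exact h W' hW' this (by simpa using hl) x he.symm
  | cons a W ih =>
    cases W' with
    | nil => exact absurd he (h (a :: W) hW (by simp) (by simpa using hl) x)
    | cons a' W' =>
      by_cases haa : a = a'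
      · subst haa
        have := ih hW.tail hW'.tail (by simp at hl; omega) (act1_inj G a he)
        rw [this]
      · exfalso
        have h1 : Red (iw (a :: W) ++ a' :: W') := by
          rw [iw_cons, List.append_assoc]
          apply red_glue
          · have := red_iw hW
            rwa [iw_cons] at this
          · exact ⟨fun hh => haa (L.inv_inj hh), hW'⟩
        refine h _ h1 (by simp) (by simpa [length_iw] using hl) x ?_
        rw [act_append, ← he, act_iw]

/-! ### branches -/

theorem self_mem_br (G : CG V) (d : ℕ) (a : L) (x : V) : x ∈ br G d a x := by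
  cases d <;> simp [br]

theorem br_k1 (G : CG V) (d : ℕ) (a : L) (x : V) :
    br G d (k1 a) (act1 G (k1 a) x) ⊆ br G (d + 1) a x := by
  intro y hy
  simp [br, hy]

theorem br_k2 (G : CG V) (d : ℕ) (a : L) (x : V) :
    br G d (k2 a) (act1 G (k2 a) x) ⊆ br G (d + 1) a x := by
  intro y hy
  simp [br, hy]

/-- vertices of a branch have words which extend the word of the root -/
theorem br_word (G : CG V) (z : V) : ∀ (d : ℕ) (a : L) (W : List L), Red (a :: W) →
    ∀ y ∈ br G d a (act G (a :: W) z), ∃ U : List L, y = act G (U ++ a :: W) z ∧
      Red (U ++ a :: W) ∧ U.length ≤ d := by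
  intro d
  induction d with
  | zero =>
    intro a W hW y hy
    simp only [br, mem_singleton] at hy
    exact ⟨[], by simpa using hy, hW, by simp⟩
  | succ d ih =>
    intro a W hW y hy
    simp only [br, mem_insert, mem_union] at hy
    rcases hy with rfl | hy | hy
    · exact ⟨[], rfl, hW, by simp⟩
    · obtain ⟨U, h1, h2, h3⟩ := ih (k1 a) (a :: W) ⟨k1_ne_inv a, hW⟩ y hy
      exact ⟨U ++ [k1 a], by simpa using h1, by simpa using h2, by simpa using h3⟩
    · obtain ⟨U, h1, h2, h3⟩ := ih (k2 a) (a :: W) ⟨k2_ne_inv a, hW⟩ y hy
      exact ⟨U ++ [k2 a], by simpa using h1, by simpa using h2, by simpa using h3⟩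

/-- vertices of the branch at a centre -/
theorem br_word_root (G : CG V) (z : V) (R : ℕ) (a : L) (y : V)
    (hy : y ∈ br G R a (act1 G a z)) : ∃ U : List L, y = act G (U ++ [a]) z ∧
      Red (U ++ [a]) ∧ U.length ≤ R :=
  br_word G z R a [] (red_single a) y hy

theorem card_br_le (G : CG V) : ∀ (d : ℕ) (a : L) (x : V), (br G d a x).card + 1 ≤ 2 ^ (d + 1) := by
  intro d
  induction d with
  | zero => intro a x; simp [br]
  | succ d ih =>
    intro a x
    have h1 := ih (k1 a) (act1 G (k1 a) x)
    have h2 := ih (k2 a) (act1 G (k2 a) x)
    have h3 := card_insert_le x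
      (br G d (k1 a) (act1 G (k1 a) x) ∪ br G d (k2 a) (act1 G (k2 a) x))
    have h4 := card_union_le (br G d (k1 a) (act1 G (k1 a) x)) (br G d (k2 a) (act1 G (k2 a) x))
    have : (2 : ℕ) ^ (d + 1 + 1) = 2 ^ (d + 1) + 2 ^ (d + 1) := by ring
    simp only [br]
    omega

/-- `rd` only sees the branch -/
theorem rd_congr (G : CG V) (nt nt' : V → St) : ∀ (d : ℕ) (a : L) (x : V),
    (∀ y ∈ br G d a x, nt y = nt' y) → rd G nt d a x = rd G nt' d a x := by
  intro d
  induction d with
  | zero =>
    intro a x h
    exact h x (by simp [br])
  | succ d ih =>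
    intro a x h
    simp only [rd]
    rw [h x (self_mem_br G _ a x), ih (k1 a) _ fun y hy => h y (br_k1 G d a x hy),
      ih (k2 a) _ fun y hy => h y (br_k2 G d a x hy)]

@[simp] theorem root_rd (G : CG V) (nt : V → St) (d : ℕ) (a : L) (x : V) :
    root d (rd G nt d a x) = nt x := by
  cases d <;> rfl

/-- the vertices of the branch at a centre are not centres -/
theorem Hyp.Z_br {C : Ctx V} {R D0 D1 : ℕ} (H : Hyp C R D0 D1) {z : V} (hz : C.Z z = true) (a : L)
    {y : V} (hy : y ∈ br C.G R a (act1 C.G a z)) : C.Z y = false := by
  obtain ⟨U, rfl, h2, h3⟩ := br_word_root C.G z R a y hy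
  have := H.D0R
  exact H.z1 z _ hz h2 (by simp) (by simp; omega)

/-! ### lists -/

theorem mem_bl (k : ℕ) (l : List Bool) : l ∈ bl k ↔ l.length = k := by
  induction k generalizing l with
  | zero => simp [bl]
  | succ k ih =>
    simp only [bl, mem_union, mem_image]
    constructor
    · rintro (⟨m, hm, rfl⟩ | ⟨m, hm, rfl⟩) <;> simp [(ih m).1 hm]
    · intro h
      cases l with
      | nil => simp at h
      | cons β l =>
        have h' : l ∈ bl k := (ih l).2 (by simpa using h)
        cases β
        · exact Or.inr ⟨l, h', rfl⟩
        · exact Or.inl ⟨l, h', rfl⟩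

theorem card_bl (k : ℕ) : (bl k).card = 2 ^ k := by
  induction k with
  | zero => simp [bl]
  | succ k ih =>
    rw [bl, card_union_of_disjoint, card_image_of_injective _ List.cons_injective,
      card_image_of_injective _ List.cons_injective, ih]
    · ring
    · rw [disjoint_left]
      intro l h1 h2
      simp only [mem_image] at h1 h2
      obtain ⟨m, _, rfl⟩ := h1
      obtain ⟨m', _, h⟩ := h2
      simp at h

theorem walkF_append (G : CG V) (l l' : List Bool) (h : WS V) :
    walkF G (l ++ l') h = walkF G l' (walkF G l h) := by
  induction l generalizing h with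
  | nil => rfl
  | cons β l ih => exact ih _

theorem walkB_append (G : CG V) (l l' : List Bool) (h : WS V) :
    walkB G (l ++ l') h = walkB G l' (walkB G l h) := by
  induction l generalizing h with
  | nil => rfl
  | cons β l ih => exact ih _

theorem follows_append (G : CG V) (Z P : V → Bool) (l l' : List Bool) (h : WS V) :
    follows G Z P (l ++ l') h ↔ follows G Z P l h ∧ follows G Z P l' (walkF G l h) := by
  induction l generalizing h with
  | nil => simp [follows, walkF]
  | cons β l ih =>
    simp only [List.cons_append, follows, walkF, ih, and_assoc]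

end Pool.Agent.Helper86.TC8
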