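import Pool.Agent.Helper86.TC8.E2P

set_option autoImplicit false

namespace Pool.Agent.Helper86.TC8

open Finset
open scoped Classical

variable {V : Type}

theorem avoid_of_follows {G : CG V} {Z P : V → Bool} (l : List Bool) : ∀ h : WS V,
    Z h.2 = false → follows G Z P l h → avoidF G Z l h := by
  induction l with
  | nil => intro h hz _; exact hz
  | cons β l ih =>
    intro h hz hf
    obtain ⟨h1, h2, h3⟩ := hf
    refine ⟨hz, ih _ ?_ h3⟩
    rcases stepW_inr h2 with ⟨h4, h5⟩ | ⟨h4, h5, h6⟩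
    · rw [h4]; exact h5
    · rw [h4]; exact h6

theorem avoidF_append {G : CG V} {Z : V → Bool} (l l' : List Bool) : ∀ h : WS V,
    avoidF G Z (l ++ l') h → avoidF G Z l h := by
  induction l with
  | nil =>
    intro h hh
    cases l' with
    | nil => exact hh
    | cons β l' => exact hh.1
  | cons β l ih =>
    intro h hh
    exact ⟨hh.1, ih _ hh.2⟩

/-- the side at a vertex of the branch is determined by the tree -/
theorem mtch_side (G : CG V) : ∀ (d : ℕ) (a : L) (x : V) (t : Tr d), ∀ y ∈ br G d a x,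
    ∃ v : Bool, ∀ s P : V → Bool, mtch G s P d a x t → s y = v := by
  intro d
  induction d with
  | zero =>
    intro a x t y hy
    simp only [br, mem_singleton] at hy
    subst hy
    exact ⟨_, fun s P h => h.1⟩
  | succ d ih =>
    intro a x t y hy
    simp only [br, mem_insert, mem_union] at hy
    rcases hy with rfl | hy | hy
    · exact ⟨_, fun s P h => h.1⟩
    · obtain ⟨v, hv⟩ := ih (k1 a) _ t.2.1 y hy
      exact ⟨v, fun s P h => hv s P h.2.2.1⟩
    · obtain ⟨v, hv⟩ := ih (k2 a) _ t.2.2 y hy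
      exact ⟨v, fun s P h => hv s P h.2.2.2⟩

theorem pr_zero {ι : Type} [Fintype ι] {A : (ι → Bool) → Prop} (h : ∀ ω, ¬ A ω) : pr A = 0 := by
  unfold pr
  rw [Finset.filter_false_of_mem (fun ω _ => h ω)]
  simp

theorem st_SIDEP (hREL : ST_REL) (hCYL : ST_CYL) (hFRV : ST_FRV) (hFRW : ST_FRW) (hPR : ST_PR) :
    ST_SIDEP := by
  intro V _ C R D0 D1 H z a t y t0 l hz hy hl
  have hL := H.Lpos
  obtain ⟨f1, f2⟩ := hFRW R a t
  set n := (freshAll R a t).length with hn
  have hpos : (0:ℝ) ≤ (1 / 2) ^ n := by positivity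
  by_cases hc : l.length ≤ 2 * R + 8
  · -- only the branch
    have h1 : pr (fun ω : Idx V → Bool => mtch C.G (sd C (ph ω)) (PP C ω) R a (act1 C.G a z) t ∧
        follows C.G C.Z (PP C ω) l (t0, y)) ≤ (1 / 2) ^ n := by
      refine ((hPR (Idx V)).1 _ _ ?_).trans (hCYL V C R D0 D1 H z (freshAll R a t) ?_ f1)
      · intro ω hω
        exact hFRV V C R D0 D1 H z a t (ph ω) hz hω.1
      · intro e he
        exact ⟨(f2 e he).1, by have := (f2 e he).2.1; omega⟩
    refine h1.trans ?_
    have h2 : (1:ℝ) ≤ 2 ^ (2 * R + 8) * (1 / 2) ^ l.length := by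
      obtain ⟨k, hk⟩ := Nat.exists_eq_add_of_le hc
      rw [hk, pow_add, mul_right_comm, ← mul_pow]
      norm_num
      exact one_le_pow₀ (by norm_num)
    nlinarith
  · push Not at hc
    by_cases hex : ∃ ω : Idx V → Bool, mtch C.G (sd C (ph ω)) (PP C ω) R a (act1 C.G a z) t ∧
        follows C.G C.Z (PP C ω) l (t0, y)
    swap
    · push Not at hex
      rw [pr_zero (fun ω hω => hex ω hω.1 hω.2)]
      positivity
    obtain ⟨ω0, _, hf0⟩ := hex
    have hzy := H.Z_br hz a hy
    have hav := avoid_of_follows l (t0, y) hzy hf0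
    obtain ⟨U, hU1, hU2, hU3⟩ := br_word_root C.G z R a y hy
    obtain ⟨v0, hv0⟩ := mtch_side C.G R a (act1 C.G a z) t y hy
    subst hU1
    set l1 := l.take (2 * R + 8) with hl1
    set l2 := l.drop (2 * R + 8) with hl2
    have hll : l = l1 ++ l2 := (List.take_append_drop _ _).symm
    have hlen1 : l1.length = 2 * R + 8 := by simp [hl1]; omega
    have hlen2 : l.length = 2 * R + 8 + l2.length := by
      have := congrArg List.length hll
      rw [List.length_append, hlen1] at this
      exact this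
    rw [hll] at hav
    obtain ⟨t1, W1, p1, p2, p3, p4⟩ := st_PTH V C.G C.Z z (U ++ [a]) t0 l1 hz hU2
      (avoidF_append _ _ _ hav)
    have hUl : (U ++ [a]).length ≤ R + 1 := by simp; omega
    obtain ⟨⟨W', hW'⟩, p5⟩ := p4 (by omega)
    rw [hlen1] at p3 p5
    have q1 : Red (.b :: W1) := by
      rw [hW'] at p2 ⊢
      exact ⟨by simp [L.inv], p2⟩
    have q2 : ∀ W'', W1 ≠ .n :: W'' := by
      intro W''
      rw [hW']
      simp
    obtain ⟨i1, i2, i3, i4⟩ := ptc_main C.G z l2 t1 W1 q1 q2
    set v1 := endv l1 v0 with hv1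
    have hmem : ∀ e ∈ lwd l2 t1 W1 v1, e.1 ∈ wds l2 t1 W1 := by
      intro e he
      rw [← lwd_fst l2 t1 W1 v1]
      exact List.mem_map_of_mem he
    have h1 : pr (fun ω : Idx V → Bool => mtch C.G (sd C (ph ω)) (PP C ω) R a (act1 C.G a z) t ∧
        follows C.G C.Z (PP C ω) l (t0, act C.G (U ++ [a]) z)) ≤
        (1 / 2) ^ (freshAll R a t ++ lwd l2 t1 W1 v1).length := by
      refine ((hPR (Idx V)).1 _ _ ?_).trans (hCYL V C R D0 D1 H z _ ?_ ?_)
      · intro ω hω e he
        rw [List.mem_append] at he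
        rcases he with he | he
        · exact hFRV V C R D0 D1 H z a t (ph ω) hz hω.1 e he
        · have hfo := hω.2
          rw [hll, follows_append] at hfo
          have hs0 := hv0 (sd C (ph ω)) (PP C ω) hω.1
          obtain ⟨e1, e2⟩ := sal_end hREL H (ph ω) l1 (t0, act C.G (U ++ [a]) z) v0 hzy hfo.1 hs0
          have hfo2 := hfo.2
          rw [p1] at e1 e2 hfo2
          exact sal hREL H (ph ω) z l2 t1 W1 v1 e1 hfo2 e2 e he
      · intro e he
        rw [List.mem_append] at he
        rcases he with he | he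
        · exact ⟨(f2 e he).1, by have := (f2 e he).2.1; omega⟩
        · obtain ⟨j1, j2, _⟩ := i3 _ (hmem e he)
          exact ⟨j1, by omega⟩
      · rw [List.map_append, List.nodup_append, lwd_can]
        refine ⟨f1, i4, ?_⟩
        intro w hw w' hw' hww
        subst hww
        obtain ⟨e, he, he2⟩ := List.mem_map.1 hw
        obtain ⟨e', he', he2'⟩ := List.mem_map.1 hw'
        have g1 := (f2 e he).2.2
        have g2 := (i3 e' he').2.2
        rw [he2'] at g2
        rw [he2] at g1
        omega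
    refine h1.trans ?_
    rw [List.length_append, length_lwd, ← hn, hlen2, pow_add, pow_add (1 / 2 : ℝ) (2 * R + 8)]
    have : (2:ℝ) ^ (2 * R + 8) * (1 / 2) ^ (2 * R + 8) = 1 := by
      rw [← mul_pow]; norm_num
    have h5 : (2:ℝ) ^ (2 * R + 8) * ((1 / 2) ^ (2 * R + 8) * (1 / 2) ^ l2.length) * (1 / 2) ^ n =
        (1 / 2) ^ l2.length * (1 / 2) ^ n := by
      rw [← mul_assoc, this, one_mul]
    rw [h5, mul_comm]

end Pool.Agent.Helper86.TC8
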