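import Pool.Agent.Helper86.TC8.SIDEP
import Pool.Agent.Helper18.TC8.MAT0
import Pool.Agent.Helper2.TC8.NATR
import Pool.Agent.Helper2.TC8.STAR
import Pool.Agent.Helper86.TC8B.BMain
import Pool.Agent.Helper86.TC8B.B14
import Pool.Agent.Helper12.TC8.SRC
import Pool.Agent.Helper98.TC8.BITSP
import Pool.Agent.Helper78.TC8.CNTID
import Pool.Agent.Helper22.TC8.COMB
import Pool.Agent.Helper22.TC8.FINAL
import Pool.Agent.Helper25.TC8.SUM2
import Pool.Agent.Helper25.TC8.SUM3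
import Pool.Agent.Helper32.TC8.EXT
import Pool.Agent.Helper32.TC8.REL
import Pool.Agent.Helper52.TC8.FRV
import Pool.Agent.Helper52.TC8.FRW
import Pool.Agent.Helper53.TC8.GFREE
import Pool.Agent.Helper53.TC8.PMG
import Pool.Agent.Helper59.TC8.LLLA
import Pool.Agent.Helper59.TC8.LOC
import Pool.Agent.Helper59.TC8.CNT0
import Pool.Agent.Helper60.TC8.STA2
import Pool.Agent.Helper62.TC8.NUM
import Pool.Agent.Helper62.TC8.ORI
import Pool.Agent.Helper66.TC8.COL
import Pool.Agent.Helper66.TC8.LAWT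
import Pool.Agent.Helper66.TC8.PR
import Pool.Agent.Helper66.TC8.PROD
import Pool.Agent.Helper66.TC8.REC
import Pool.Agent.Helper84.TC8.FOL
import Pool.Agent.Helper84.TC8.CNT
import Pool.Agent.Helper89.TC8.DEC
import Pool.Agent.Helper89.TC8.E3P
import Pool.Agent.Helper89.TC8.CORE
import Pool.Agent.Helper89.TC8.MAIN1
import Pool.Agent.Helper91.TC8.GLUE
import Pool.Agent.Helper91.TC8.BRI
import Pool.Agent.Helper93.TC8.CAN
import Pool.Agent.Helper93.TC8.SEG
import Pool.Agent.Helper93.TC8.CYL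
import Pool.Agent.Helper93.TC8.TCH

/-!
Large girth cubic graphs are 4-total-colourable: assembly.
-/

set_option autoImplicit false

namespace Pool.Agent.Helper86.TC8

theorem all_PR : ST_PR := Pool.Agent.Helper66.TC8.st_PR
theorem all_PROD : ST_PROD := Pool.Agent.Helper66.TC8.st_PROD
theorem all_COL : ST_COL := Pool.Agent.Helper66.TC8.st_COL
theorem all_COMB : ST_COMB := Pool.Agent.Helper22.TC8.st_COMB all_COL
theorem all_LAWT : ST_LAWT := Pool.Agent.Helper66.TC8.st_LAWT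
theorem all_FOL : ST_FOL := Pool.Agent.Helper84.TC8.st_FOL
theorem all_EXT : ST_EXT := Pool.Agent.Helper32.TC8.st_EXT all_COL
theorem all_REL : ST_REL := Pool.Agent.Helper32.TC8R.st_REL
theorem all_CAN : ST_CAN := Pool.Agent.Helper93.TC8.st_CAN
theorem all_SEG : ST_SEG := Pool.Agent.Helper93.TC8.st_SEG
theorem all_CYL : ST_CYL := Pool.Agent.Helper93.TC8.st_CYL all_PR all_CAN
theorem all_TCH : ST_TCH := Pool.Agent.Helper93.TC8.st_TCH all_SEG
theorem all_NATR : ST_NATR := Pool.Agent.Helper2.TC8.st_NATR all_REL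
theorem all_LOC : ST_LOC := Pool.Agent.Helper59.TC8.st_LOC
theorem all_NBR : ST_NBR := Pool.Agent.Helper59.TC8.st_NBR
theorem all_CNT0 : ST_CNT0 := Pool.Agent.Helper59.TC8.st_CNT0
theorem all_LLLA : ST_LLLA := Pool.Agent.Helper59.TC8.st_LLLA
theorem all_CNT : ST_CNT := Pool.Agent.Helper84.TC8.st_CNT all_FOL
theorem all_E2P : ST_E2P := st_E2P all_REL all_CYL all_PR
theorem all_FRV : ST_FRV := Pool.Agent.Helper52.TC8.st_FRV all_REL
theorem all_FRW : ST_FRW := Pool.Agent.Helper52.TC8.st_FRW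
theorem all_SIDEP : ST_SIDEP := st_SIDEP all_REL all_CYL all_FRV all_FRW all_PR
theorem all_SRC : ST_SRC := Pool.Agent.Helper12.TC8.st_SRC
theorem all_BITSP : ST_BITSP := Pool.Agent.Helper98.TC8.st_BITSP all_SRC all_PROD
theorem all_CNTID : ST_CNTID := Pool.Agent.Helper78.TC8.st_CNTID
theorem all_STAR : ST_STAR :=
  Pool.Agent.Helper2.TC8.st_STAR all_SIDEP all_BITSP all_CNTID all_NATR all_FRV
theorem all_E3P : ST_E3P := Pool.Agent.Helper89.TC8.st_E3P all_STAR all_LAWT all_COL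
theorem all_SUM2 : ST_SUM2 :=
  Pool.Agent.Helper25.TC8.st_SUM2 all_FOL all_E2P all_CNT all_TCH all_PR
theorem all_SUM3 : ST_SUM3 :=
  Pool.Agent.Helper25.TC8.st_SUM3 all_FOL all_E3P all_CNT0 all_NBR all_TCH all_PR
theorem all_CORE : ST_CORE :=
  Pool.Agent.Helper89.TC8.st_CORE all_LLLA all_LOC all_SUM2 all_SUM3 all_NATR all_EXT all_FOL
theorem all_BASE : ST_BASE :=
  base_of my_B1 my_B4
theorem all_REC : ST_REC := Pool.Agent.Helper66.TC8.st_REC all_COMB all_LAWT
theorem all_DEC : ST_DEC := Pool.Agent.Helper89.TC8.st_DEC all_BASE all_REC all_COMB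
theorem all_STA : ST_STA := Pool.Agent.Helper60.TC8.st_STA all_LLLA all_PR
theorem all_NUM : ST_NUM := Pool.Agent.Helper62.TC8.st_NUM
theorem all_MAIN1 : ST_MAIN1 := Pool.Agent.Helper89.TC8.st_MAIN1 all_STA all_CORE all_DEC all_NUM
theorem all_ORI : ST_ORI := Pool.Agent.Helper62.TC8.st_ORI
theorem all_GFREE : ST_GFREE := Pool.Agent.Helper53.TC8.st_GFREE
theorem all_PMG : ST_PMG := Pool.Agent.Helper53.TC8.st_PMG all_MAIN1 all_ORI all_GFREE
theorem all_GLUE : ST_GLUE := Pool.Agent.Helper91.TC8.st_GLUE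
theorem all_MAT0 : ST_MAT0 := Pool.Agent.Helper18.TC8.st_MAT0
theorem all_BRI : ST_BRI := Pool.Agent.Helper91.TC8.st_BRI
theorem all_FINAL : ST_FINAL := Pool.Agent.Helper22.TC8.st_FINAL all_PMG all_GLUE all_MAT0 all_BRI

end Pool.Agent.Helper86.TC8
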