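import Mathlib

/-!
Large girth cubic graphs are 4-total-colourable: definitions.
Blueprint: /team-store/tc8_blueprint.md
-/

set_option autoImplicit false

namespace Pool.Agent.Helper86.TC8

open Finset
open scoped Classical

/-! ### letters and words -/

/-- `n`: the matching edge, `b`: one step back on the 2-factor, `f`: one step forward -/
inductive L
  | n
  | b
  | f
  deriving DecidableEq

instance : Fintype L := ⟨{L.n, L.b, L.f}, by intro x; cases x <;> simp⟩

/-- the inverse letter -/
def L.inv : L → L
  | .n => .n
  | .b => .f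
  | .f => .b

/-- cubic graphs with a perfect matching `nu` and an oriented 2-factor `fw` -/
structure CG (V : Type) where
  nu : V → V
  fw : V → V
  bw : V → V
  nu_nu : ∀ x, nu (nu x) = x
  fw_bw : ∀ x, fw (bw x) = x
  bw_fw : ∀ x, bw (fw x) = x

variable {V : Type}

/-- action of a letter -/
def act1 (G : CG V) : L → V → V
  | .n => G.nu
  | .b => G.bw
  | .f => G.fw

/-- action of a word (on the left) -/
def act (G : CG V) : List L → V → V
  | [], x => x
  | a :: w, x => act1 G a (act G w x)

/-- reduced words -/
def Red : List L → Prop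
  | [] => True
  | [_] => True
  | a :: c :: w => a ≠ c.inv ∧ Red (c :: w)

/-- no reduced word of length between `1` and `g` fixes a vertex -/
def Free (G : CG V) (g : ℕ) : Prop :=
  ∀ w : List L, Red w → w ≠ [] → w.length ≤ g → ∀ x, act G w x ≠ x

/-! ### local states, colours -/

/-- local state: side, status, bit of the vertex, bit of the forward edge -/
structure St where
  s : Bool
  P : Bool
  m : Bool
  B : Bool
  deriving DecidableEq, Fintype

/-- the four colours -/
abbrev Col := Bool × Bool

/-- colour of the vertex -/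
def vcol (x : St) : Col := (x.s, x.m)

/-- colour of the edge in direction `c` -/
def ecol : L → St → Col
  | .f, x => (!x.s, x.B)
  | .b, x => if x.P then (x.s, !x.m) else (!x.s, !x.B)
  | .n, x => if x.P then (!x.s, !x.B) else (x.s, !x.m)

/-- the natural rules between the state of `x` and the state of `c x` -/
def nxt : L → St → St → Bool
  | .n, x, y => (y.s == !x.s) && (y.P == !x.P) && (if x.P then y.m == x.B else y.B == x.m)
  | .b, x, y => (y.s == (x.s ^^ x.P)) &&
      (if x.P then y.B == !x.m else ((y.m == !x.m) && (y.B == !x.B)))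
  | .f, x, y => (y.s == (x.s ^^ y.P)) &&
      (if y.P then y.m == !x.B else ((y.m == !x.m) && (y.B == !x.B)))

/-- four times the transition weight -/
def kn : L → St → St → ℕ
  | .n, x, y => if nxt .n x y then 2 else 0
  | .b, x, y => if nxt .b x y then (if x.P then 1 else 2) else 0
  | .f, x, y => if nxt .f x y then (if y.P then 1 else 2) else 0

/-- transition weight -/
noncomputable def kw (c : L) (x y : St) : ℝ := (kn c x y : ℝ) / 4

/-- (colour of the edge to the parent, colour of the vertex) -/
abbrev Pr := Col × Col

/-- the pair of a vertex which is reached from its parent by the letter `a` -/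
def pair (a : L) (x : St) : Pr := (ecol a.inv x, vcol x)

/-- `q` at a vertex is compatible with the pairs `p`, `r` of its two children -/
def OKc (q p r : Pr) : Bool :=
  (q.1 != q.2) && (q.1 != p.1) && (q.1 != r.1) && (q.2 != p.1) && (q.2 != r.1) && (p.1 != r.1) &&
    (q.2 != p.2) && (q.2 != r.2)

/-- pairs which can be realised if the children realise `X` and `Y` -/
def comb (X Y : Finset Pr) : Finset Pr := univ.filter fun q => ∃ p ∈ X, ∃ r ∈ Y, OKc q p r = true

/-- all admissible pairs -/
def full : Finset Pr := univ.filter fun q => q.1 ≠ q.2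

/-- first child letter of a vertex reached by `a` -/
def k1 : L → L
  | .n => .b
  | .b => .b
  | .f => .f

/-- second child letter of a vertex reached by `a` -/
def k2 : L → L
  | .n => .f
  | .b => .n
  | .f => .n

/-! ### trees of states -/

/-- complete binary trees of states of depth `d` -/
def Tr : ℕ → Type
  | 0 => St
  | d + 1 => St × Tr d × Tr d

instance instFTr : (d : ℕ) → Fintype (Tr d)
  | 0 => inferInstanceAs (Fintype St)
  | d + 1 => by
    haveI := instFTr d
    exact inferInstanceAs (Fintype (St × Tr d × Tr d))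

/-- the root state -/
def root : (d : ℕ) → Tr d → St
  | 0, t => t
  | _ + 1, t => t.1

/-- feasible pairs at the root of a tree with frozen leaves -/
noncomputable def feas : (d : ℕ) → L → Tr d → Finset Pr
  | 0, a, t => {pair a t}
  | d + 1, a, t => comb (feas d (k1 a) t.2.1) (feas d (k2 a) t.2.2)

/-- weight of a tree given its root state -/
noncomputable def wtr : (d : ℕ) → L → Tr d → ℝ
  | 0, _, _ => 1
  | d + 1, a, t => kw (k1 a) t.1 (root d t.2.1) * kw (k2 a) t.1 (root d t.2.2) *
      wtr d (k1 a) t.2.1 * wtr d (k2 a) t.2.2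

/-- expectation of `M` of the feasible set under the model -/
noncomputable def lawE : ℕ → L → St → (Finset Pr → ℝ) → ℝ
  | 0, a, st, M => M {pair a st}
  | d + 1, a, st, M => ∑ x : St, ∑ y : St, kw (k1 a) st x * kw (k2 a) st y *
      lawE d (k1 a) x (fun X => lawE d (k2 a) y (fun Y => M (comb X Y)))

/-- probability that the feasible set is not full -/
noncomputable def pfail (d : ℕ) (a : L) (st : St) : ℝ :=
  1 - lawE d a st (fun X => if X = full then 1 else 0)

/-- the tree of states read in the branch at `x` (reached by `a`) -/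
def rd (G : CG V) (nat : V → St) : (d : ℕ) → L → V → Tr d
  | 0, _, x => nat x
  | d + 1, a, x => (nat x, rd G nat d (k1 a) (act1 G (k1 a) x), rd G nat d (k2 a) (act1 G (k2 a) x))

/-- the vertices of the branch -/
noncomputable def br (G : CG V) : ℕ → L → V → Finset V
  | 0, _, x => {x}
  | d + 1, a, x => insert x (br G d (k1 a) (act1 G (k1 a) x) ∪ br G d (k2 a) (act1 G (k2 a) x))

/-! ### walker states and paths -/

/-- a walker state: `(false, x)` is `(mu, x)`, `(true, x)` is `(B, x)` -/
abbrev WS (V : Type) := Bool × V

/-- forward successor -/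
def fwd (G : CG V) (β : Bool) (h : WS V) : WS V :=
  if h.1 then (if β then (false, G.bw (G.nu h.2)) else (true, G.bw h.2)) else (β, G.bw h.2)

/-- backward successor -/
def bwd (G : CG V) (β : Bool) (h : WS V) : WS V :=
  if h.1 then (β, G.fw h.2) else (if β then (true, G.nu (G.fw h.2)) else (false, G.fw h.2))

/-- end of a forward path -/
def walkF (G : CG V) : List Bool → WS V → WS V
  | [], h => h
  | β :: l, h => walkF G l (fwd G β h)

/-- end of a backward path -/
def walkB (G : CG V) : List Bool → WS V → WS V
  | [], h => h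
  | β :: l, h => walkB G l (bwd G β h)

/-- the forward path avoids `Z` (at all its `l.length + 1` vertices) -/
def avoidF (G : CG V) (Z : V → Bool) : List Bool → WS V → Prop
  | [], h => Z h.2 = false
  | β :: l, h => Z h.2 = false ∧ avoidF G Z l (fwd G β h)

/-- the backward path avoids `Z` -/
def avoidB (G : CG V) (Z : V → Bool) : List Bool → WS V → Prop
  | [], h => Z h.2 = false
  | β :: l, h => Z h.2 = false ∧ avoidB G Z l (bwd G β h)

/-- all lists of Booleans of length `k` -/
noncomputable def bl : ℕ → Finset (List Bool)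
  | 0 => {[]}
  | k + 1 => (bl k).image (List.cons true) ∪ (bl k).image (List.cons false)

/-! ### lines, segments, sides -/

/-- the partner `b n f x` -/
def Tm (G : CG V) (x : V) : V := G.bw (G.nu (G.fw x))

/-- link of type `β`: `true` is the matching link, `false` the link to `Tm` -/
def link (G : CG V) (β : Bool) (x : V) : V := if β then G.nu x else Tm G x

/-- the link is not cut by `Z` -/
def ok (G : CG V) (Z : V → Bool) (β : Bool) (x : V) : Bool :=
  if β then !Z x && !Z (G.nu x)
  else !Z x && !Z (Tm G x) && !Z (G.fw x) && !Z (G.nu (G.fw x))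

/-- follow at most `k` links, starting with type `β`; end and parity of the number of matching links -/
def scan (G : CG V) (Z : V → Bool) : ℕ → Bool → V → V × Bool
  | 0, _, x => (x, false)
  | k + 1, β, x => if ok G Z β x then
      ((scan G Z k (!β) (link G β x)).1, (scan G Z k (!β) (link G β x)).2 ^^ β) else (x, false)

/-- a cut link appears after at most `k` links -/
def Ends (G : CG V) (Z : V → Bool) : ℕ → Bool → V → Prop
  | 0, β, x => ok G Z β x = false
  | k + 1, β, x => ok G Z β x = false ∨ Ends G Z k (!β) (link G β x)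

/-- the data: graph, centres, rank, scan length, walker length -/
structure Ctx (V : Type) where
  G : CG V
  Z : V → Bool
  rk : V → ℕ
  K : ℕ
  LF : ℕ

/-- representative of the segment of `x`, and the parity to it -/
def rep (C : Ctx V) (x : V) : V × Bool :=
  if C.rk (scan C.G C.Z C.K true x).1 ≤ C.rk (scan C.G C.Z C.K false x).1
  then scan C.G C.Z C.K true x else scan C.G C.Z C.K false x

/-- index set of the random bits: `(none, v)` phase, `(some false, v)` mu-source, `(some true, v)`
B-source -/
abbrev Idx (V : Type) := Option Bool × V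

/-- side of `x` for the phases `p` -/
def sd (C : Ctx V) (p : V → Bool) (x : V) : Bool := p (rep C x).1 ^^ (rep C x).2

/-- status of `x` -/
def ps (C : Ctx V) (p : V → Bool) (x : V) : Bool :=
  sd C p x ^^ (if C.Z (C.G.bw x) then sd C p (C.G.bw (C.G.nu x)) else sd C p (C.G.bw x))

/-! ### walkers -/

/-- one step of a walker: `inl` = stop with this source, `inr` = go on -/
def stepW (G : CG V) (Z : V → Bool) (P : V → Bool) (h : WS V) : WS V ⊕ WS V :=
  if h.1 then
    (if P h.2 then
      (if Z (G.nu h.2) then .inl (true, h.2)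
       else if Z (G.bw (G.nu h.2)) then .inl (false, G.nu h.2) else .inr (false, G.bw (G.nu h.2)))
     else (if Z (G.bw h.2) then .inl (true, h.2) else .inr (true, G.bw h.2)))
  else (if Z (G.bw h.2) then .inl (false, h.2) else .inr (P h.2, G.bw h.2))

/-- the walker stops within `k` steps -/
def Stops (G : CG V) (Z : V → Bool) (P : V → Bool) : ℕ → WS V → Prop
  | 0, _ => False
  | k + 1, h => match stepW G Z P h with
    | .inl _ => True
    | .inr h' => Stops G Z P k h'

/-- value of a walker state: bit of the source plus the number of steps -/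
def valW (G : CG V) (Z : V → Bool) (P : V → Bool) (u : Bool → V → Bool) : ℕ → WS V → Bool
  | 0, _ => false
  | k + 1, h => match stepW G Z P h with
    | .inl h' => u h'.1 h'.2
    | .inr h' => !(valW G Z P u k h')

/-- the walker reads the statuses `l` and does not stop while doing this -/
def follows (G : CG V) (Z : V → Bool) (P : V → Bool) : List Bool → WS V → Prop
  | [], _ => True
  | β :: l, h => P h.2 = β ∧ stepW G Z P h = .inr (fwd G β h) ∧ follows G Z P l (fwd G β h)

/-- phases of an outcome -/
def ph (ω : Idx V → Bool) : V → Bool := fun v => ω (none, v)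

/-- source bits of an outcome -/
def sb (ω : Idx V → Bool) : Bool → V → Bool := fun t v => ω (some t, v)

/-- the statuses of an outcome -/
def PP (C : Ctx V) (ω : Idx V → Bool) : V → Bool := ps C (ph ω)

/-- the natural states -/
def nat (C : Ctx V) (ω : Idx V → Bool) (x : V) : St :=
  ⟨sd C (ph ω) x, PP C ω x, valW C.G C.Z (PP C ω) (sb ω) (C.LF + 1) (false, x),
    valW C.G C.Z (PP C ω) (sb ω) (C.LF + 1) (true, x)⟩

/-! ### explored sets -/

/-- phases read at `x` -/
noncomputable def rdV (C : Ctx V) (x : V) : Finset (Idx V) :=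
  {((none : Option Bool), (rep C x).1), ((none : Option Bool), (rep C (C.G.bw x)).1),
    ((none : Option Bool), (rep C (C.G.bw (C.G.nu x))).1)}

/-- everything read by a walker in `k` steps -/
noncomputable def rdW (C : Ctx V) (P : V → Bool) : ℕ → WS V → Finset (Idx V)
  | 0, _ => ∅
  | k + 1, h => rdV C h.2 ∪ match stepW C.G C.Z P h with
    | .inl h' => {(some h'.1, h'.2)}
    | .inr h' => rdW C P k h'

/-- all walkers of the branch stop in time -/
def StopBr (C : Ctx V) (R : ℕ) (a : L) (x : V) (ω : Idx V → Bool) : Prop :=
  ∀ y ∈ br C.G R a x, ∀ t : Bool, Stops C.G C.Z (PP C ω) C.LF (t, y)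

/-- the bad event of a centre and a letter -/
def E3 (C : Ctx V) (R : ℕ) (z : V) (a : L) (ω : Idx V → Bool) : Prop :=
  C.Z z = true ∧ StopBr C R a (act1 C.G a z) ω ∧
    feas R a (rd C.G (nat C ω) R a (act1 C.G a z)) ≠ full

/-- the bad event of a walker state -/
def E2 (C : Ctx V) (h : WS V) (ω : Idx V → Bool) : Prop :=
  C.Z h.2 = false ∧ ¬ Stops C.G C.Z (PP C ω) C.LF h

/-- explored set of `E3` -/
noncomputable def X3 (C : Ctx V) (R : ℕ) (z : V) (a : L) (ω : Idx V → Bool) : Finset (Idx V) :=
  (br C.G R a (act1 C.G a z)).biUnion fun y =>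
    rdW C (PP C ω) (C.LF + 1) (false, y) ∪ rdW C (PP C ω) (C.LF + 1) (true, y)

/-- explored set of `E2` -/
noncomputable def X2 (C : Ctx V) (h : WS V) (ω : Idx V → Bool) : Finset (Idx V) :=
  rdW C (PP C ω) C.LF h

/-- uniform probability on bits -/
noncomputable def pr {ι : Type} [Fintype ι] (A : (ι → Bool) → Prop) : ℝ :=
  ((univ.filter A).card : ℝ) / (2 : ℝ) ^ Fintype.card ι

/-! ### hypotheses -/

/-- everything that is assumed about the data -/
structure Hyp (C : Ctx V) (R D0 D1 : ℕ) : Prop where
  free : Free C.G (4 * R + 8 * C.LF + 16 * C.K + 2 * D0 + 100)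
  rk_inj : Function.Injective C.rk
  Lpos : 2 * R + 10 ≤ C.LF
  Kpos : 1 ≤ C.K
  D0R : 2 * R + 8 ≤ D0
  D1pos : 1 ≤ D1
  z1 : ∀ z w, C.Z z = true → Red w → w ≠ [] → w.length ≤ D0 → C.Z (act C.G w z) = false
  z2f : ∀ h : WS V, ∃ l : List Bool, l.length = D1 ∧ ¬ avoidF C.G C.Z l h
  z2b : ∀ h : WS V, ∃ l : List Bool, l.length = D1 ∧ ¬ avoidB C.G C.Z l h
  z3 : ∀ (β : Bool) (x : V), Ends C.G C.Z C.K β x

/-! ### canonical words -/

/-- canonical representative of the coset of a reduced word modulo `<n, bnf>` -/
def can : List L → List L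
  | .n :: w => can w
  | .b :: .n :: .f :: w => can w
  | .b :: .n :: .b :: w => .b :: .b :: w
  | [.b, .n] => [.b]
  | w => w

/-! ### total colourings of the model -/

/-- a total colouring with the colours `Col` -/
def HasTC (G : CG V) : Prop :=
  ∃ (vc : V → Col) (ec : L → V → Col),
    (∀ c x, ec c x = ec c.inv (act1 G c x)) ∧ (∀ c x, vc x ≠ vc (act1 G c x)) ∧
    (∀ c x, ec c x ≠ vc x) ∧ (∀ c c' x, c ≠ c' → ec c x ≠ ec c' x)

end Pool.Agent.Helper86.TC8
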