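import Pool.Agent.Helper86.TC8.PTC

set_option autoImplicit false

namespace Pool.Agent.Helper86.TC8

open Finset
open scoped Classical

variable {V : Type}

theorem stepW_inr {G : CG V} {Z P : V → Bool} {h h' : WS V} (hs : stepW G Z P h = .inr h') :
    (h'.2 = G.bw h.2 ∧ Z (G.bw h.2) = false) ∨
      (h'.2 = G.bw (G.nu h.2) ∧ Z (G.nu h.2) = false ∧ Z (G.bw (G.nu h.2)) = false) := by
  obtain ⟨t, x⟩ := h
  unfold stepW at hs
  cases t
  · simp only [Bool.false_eq_true, if_false] at hs
    split at hs
    · exact absurd hs (by simp)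
    · rename_i hz
      simp only [Sum.inr.injEq] at hs
      subst hs
      exact Or.inl ⟨rfl, by simpa using hz⟩
  · simp only [if_true] at hs
    split at hs
    · split at hs
      · exact absurd hs (by simp)
      · rename_i h1
        split at hs
        · exact absurd hs (by simp)
        · rename_i h2
          simp only [Sum.inr.injEq] at hs
          subst hs
          exact Or.inr ⟨rfl, by simpa using h1, by simpa using h2⟩
    · split at hs
      · exact absurd hs (by simp)
      · rename_i h1
        simp only [Sum.inr.injEq] at hs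
        subst hs
        exact Or.inl ⟨rfl, by simpa using h1⟩

/-- labelled words of the visited vertices -/
def lwd : List Bool → Bool → List L → Bool → List (List L × Bool)
  | [], _, _, _ => []
  | β :: l, t, W, v => (nw β t W, v ^^ β) :: lwd l (nt β t) (nw β t W) (v ^^ β)

theorem lwd_fst (l : List Bool) : ∀ (t : Bool) (W : List L) (v : Bool),
    (lwd l t W v).map Prod.fst = wds l t W := by
  induction l with
  | nil => intro t W v; rfl
  | cons β l ih => intro t W v; simp [lwd, wds, ih]

theorem lwd_can (l : List Bool) (t : Bool) (W : List L) (v : Bool) :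
    ((lwd l t W v).map fun e => can e.1) = (wds l t W).map can := by
  rw [← lwd_fst l t W v, List.map_map]
  rfl

theorem length_lwd (l : List Bool) : ∀ (t : Bool) (W : List L) (v : Bool),
    (lwd l t W v).length = l.length := by
  induction l with
  | nil => intro t W v; rfl
  | cons β l ih => intro t W v; simp [lwd, ih]

/-- side of the end of the path -/
def endv (l : List Bool) (v : Bool) : Bool := l.foldl (fun v β => v ^^ β) v

/-- sides along the path of a walker -/
theorem sal (hREL : ST_REL) {C : Ctx V} {R D0 D1 : ℕ} (H : Hyp C R D0 D1) (p : V → Bool) (x : V)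
    (l : List Bool) : ∀ (t : Bool) (W : List L) (v : Bool), C.Z (act C.G W x) = false →
    follows C.G C.Z (ps C p) l (t, act C.G W x) → sd C p (act C.G W x) = v →
    ∀ e ∈ lwd l t W v, sd C p (act C.G e.1 x) = e.2 := by
  induction l with
  | nil => intro t W v _ _ _ e he; simp [lwd] at he
  | cons β l ih =>
    intro t W v hz hf hv e he
    obtain ⟨h1, h2, h3⟩ := hf
    simp only at h1
    obtain ⟨r1, r2, r3, r4⟩ := hREL V C R D0 D1 H p (act C.G W x) hz
    rw [fwd_nw] at h2 h3
    have key : C.Z (act C.G (nw β t W) x) = false ∧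
        sd C p (act C.G (nw β t W) x) = (v ^^ β) := by
      rcases stepW_inr h2 with ⟨h4, h5⟩ | ⟨h4, h5, h6⟩
      · simp only at h4 h5
        rw [h4]
        exact ⟨h5, by rw [r2 h5, hv, h1]⟩
      · simp only at h4 h5 h6
        rw [h4]
        exact ⟨h6, by rw [r3 h5 h6, hv, h1]⟩
    simp only [lwd, List.mem_cons] at he
    rcases he with rfl | he
    · exact key.2
    · exact ih (nt β t) (nw β t W) (v ^^ β) key.1 h3 key.2 e he

/-- side and centre-freeness at the end of a path -/
theorem sal_end (hREL : ST_REL) {C : Ctx V} {R D0 D1 : ℕ} (H : Hyp C R D0 D1) (p : V → Bool)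
    (l : List Bool) : ∀ (h : WS V) (v : Bool), C.Z h.2 = false →
    follows C.G C.Z (ps C p) l h → sd C p h.2 = v →
    C.Z (walkF C.G l h).2 = false ∧ sd C p (walkF C.G l h).2 = endv l v := by
  induction l with
  | nil => intro h v hz _ hv; exact ⟨hz, hv⟩
  | cons β l ih =>
    intro h v hz hf hv
    obtain ⟨h1, h2, h3⟩ := hf
    obtain ⟨r1, r2, r3, r4⟩ := hREL V C R D0 D1 H p h.2 hz
    have key : C.Z (fwd C.G β h).2 = false ∧ sd C p (fwd C.G β h).2 = (v ^^ β) := by
      rcases stepW_inr h2 with ⟨h4, h5⟩ | ⟨h4, h5, h6⟩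
      · rw [h4]
        exact ⟨h5, by rw [r2 h5, hv, h1]⟩
      · rw [h4]
        exact ⟨h6, by rw [r3 h5 h6, hv, h1]⟩
    exact ih (fwd C.G β h) (v ^^ β) key.1 h3 key.2

theorem st_E2P (hREL : ST_REL) (hCYL : ST_CYL) (hPR : ST_PR) : ST_E2P := by
  intro V _ C R D0 D1 H l h hz hl
  obtain ⟨t0, x⟩ := h
  simp only at hz
  have hR := H.Lpos
  obtain ⟨i1, i2, i3, i4⟩ := ptc_main C.G x l t0 [] (red_single _) (by simp)
  have h1 := (hPR (Idx V)).2.2.1 Bool univ
    (fun ω : Idx V → Bool => follows C.G C.Z (PP C ω) l (t0, x))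
    (fun v ω => ∀ e ∈ (([], v) :: lwd l t0 [] v : List (List L × Bool)),
      sd C (ph ω) (act C.G e.1 x) = e.2) (by
      intro ω hω
      refine ⟨sd C (ph ω) x, mem_univ _, ?_⟩
      intro e he
      simp only [List.mem_cons] at he
      rcases he with rfl | he
      · rfl
      · exact sal hREL H (ph ω) x l t0 [] _ hz hω rfl e he)
  have h2 : ∀ v : Bool, pr (fun ω : Idx V → Bool =>
      ∀ e ∈ (([], v) :: lwd l t0 [] v : List (List L × Bool)),
      sd C (ph ω) (act C.G e.1 x) = e.2) ≤ (1 / 2) ^ (l.length + 1) := by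
    intro v
    have := hCYL V C R D0 D1 H x (([], v) :: lwd l t0 [] v) (by
      intro e he
      simp only [List.mem_cons] at he
      rcases he with rfl | he
      · exact ⟨red_nil, by simp⟩
      · have : e.1 ∈ wds l t0 [] := by
          rw [← lwd_fst l t0 [] v]
          exact List.mem_map_of_mem he
        obtain ⟨j1, j2, _⟩ := i3 _ this
        exact ⟨j1, by simp at j2; omega⟩) (by
      simp only [List.map_cons, List.nodup_cons]
      rw [lwd_can]
      refine ⟨?_, i4⟩
      intro hmem
      obtain ⟨w, hw, hw2⟩ := List.mem_map.1 hmem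
      obtain ⟨_, _, j3⟩ := i3 w hw
      rw [hw2] at j3
      simp [can] at j3)
    simpa [length_lwd] using this
  refine h1.trans ((Finset.sum_le_sum fun v _ => h2 v).trans ?_)
  simp only [sum_const, card_univ, Fintype.card_bool, nsmul_eq_mul]
  rw [pow_succ]
  push_cast
  linarith [pow_pos (show (0:ℝ) < 1/2 by norm_num) l.length]

end Pool.Agent.Helper86.TC8
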