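import Pool.Agent.Helper86.TC8.PTH

set_option autoImplicit false

namespace Pool.Agent.Helper86.TC8

open Finset
open scoped Classical

variable {V : Type}

/-- words of the visited vertices (without the start) -/
def wds : List Bool → Bool → List L → List (List L)
  | [], _, _ => []
  | β :: l, t, W => nw β t W :: wds l (nt β t) (nw β t W)

theorem nw_away (β t : Bool) (W : List L) (hW : Red (.b :: W)) (hn : ∀ W', W ≠ .n :: W') :
    (nw β t W = .b :: W ∨ nw β t W = .b :: .n :: W) ∧ can (nw β t W) = .b :: W ∧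
      Red (.b :: nw β t W) ∧ ∀ W', nw β t W ≠ .n :: W' := by
  match W, hW, hn with
  | [], _, _ => cases t <;> cases β <;> simp [nw, rc, L.inv, can, Red]
  | .n :: W', _, hn => exact absurd rfl (hn W')
  | .f :: W', hW, _ => exact absurd rfl hW.1
  | .b :: W', hW, _ => 
    have h2 : Red (.b :: W') := hW.2
    cases t <;> cases β <;> simp [nw, rc, L.inv, can, Red, h2]

theorem ptc_main (G : CG V) (x : V) (l : List Bool) : ∀ (t0 : Bool) (W0 : List L),
    Red (.b :: W0) → (∀ W', W0 ≠ .n :: W') →
    (wds l t0 W0).length = l.length ∧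
      (∀ k < l.length, ∃ t1 : Bool, walkF G (l.take (k + 1)) (t0, act G W0 x) =
        (t1, act G ((wds l t0 W0).getD k []) x)) ∧
      (∀ w ∈ wds l t0 W0, Red w ∧ w.length ≤ W0.length + 2 * l.length ∧
        W0.length < (can w).length) ∧
      ((wds l t0 W0).map can).Nodup := by
  induction l with
  | nil => intro t0 W0 h1 h2; simp [wds]
  | cons β l ih =>
    intro t0 W0 h1 h2
    obtain ⟨h3, h4, h5, h6⟩ := nw_away β t0 W0 h1 h2
    obtain ⟨i1, i2, i3, i4⟩ := ih (nt β t0) (nw β t0 W0) h5 h6
    have hlen : W0.length + 1 ≤ (nw β t0 W0).length := by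
      rcases h3 with h3 | h3 <;> rw [h3] <;> simp
    have hlen2 := length_nw β t0 W0
    refine ⟨by simp [wds, i1], ?_, ?_, ?_⟩
    · intro k hk
      cases k with
      | zero =>
        refine ⟨nt β t0, ?_⟩
        simp [wds, walkF, fwd_nw]
      | succ k =>
        obtain ⟨t1, ht1⟩ := i2 k (by simpa using hk)
        refine ⟨t1, ?_⟩
        simp only [wds, List.take_succ_cons, walkF, fwd_nw]
        rw [ht1]
        simp
    · intro w hw
      simp only [wds, List.mem_cons] at hw
      rcases hw with rfl | hw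
      · refine ⟨h5.tail, by simp; omega, ?_⟩
        rw [h4]; simp
      · obtain ⟨j1, j2, j3⟩ := i3 w hw
        exact ⟨j1, by simp at j2 ⊢; omega, by omega⟩
    · simp only [wds, List.map_cons, List.nodup_cons]
      refine ⟨?_, i4⟩
      intro hmem
      obtain ⟨w, hw, hw2⟩ := List.mem_map.1 hmem
      obtain ⟨j1, j2, j3⟩ := i3 w hw
      rw [hw2, h4] at j3
      simp at j3
      omega

theorem st_PTC : ST_PTC := by
  intro V G x W0 t0 l h1 h2
  obtain ⟨i1, i2, i3, i4⟩ := ptc_main G x l t0 W0 h1 h2
  exact ⟨wds l t0 W0, i1, i2, i3, i4⟩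

end Pool.Agent.Helper86.TC8
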