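import Pool.Agent.Helper86.TC8.Base
import Pool.Agent.Helper86.TC8.Stmts

set_option autoImplicit false

namespace Pool.Agent.Helper86.TC8

open Finset
open scoped Classical

variable {V : Type}

/-- word of the next state -/
def nw (β : Bool) (t : Bool) (W : List L) : List L :=
  if t then (if β then rc .b (rc .n W) else rc .b W) else rc .b W

/-- type of the next state -/
def nt (β : Bool) (t : Bool) : Bool := if t then !β else β

theorem fwd_nw (G : CG V) (β t : Bool) (W : List L) (x : V) :
    fwd G β (t, act G W x) = (nt β t, act G (nw β t W) x) := by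
  cases t <;> cases β <;>
    simp [fwd, nt, nw, act_rc, act1]

theorem red_nw {β t : Bool} {W : List L} (h : Red W) : Red (nw β t W) := by
  cases t <;> cases β <;> simp only [nw] <;>
    first | exact red_rc h | exact red_rc (red_rc h)

theorem length_nw (β t : Bool) (W : List L) : (nw β t W).length ≤ W.length + 2 := by
  have h1 := length_rc_le .b W
  have h2 := length_rc_le .n W
  have h3 := length_rc_le .b (rc .n W)
  cases t <;> cases β <;> simp [nw] <;> omega

/-- if the head is `b` the walker moves away -/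
theorem nw_b (β t : Bool) (W : List L) :
    nw β t (.b :: W) = .b :: .b :: W ∨ nw β t (.b :: W) = .b :: .n :: .b :: W := by
  cases t <;> cases β <;> simp [nw, rc, L.inv]

theorem nw_other (β t : Bool) (W : List L) (hW : Red W) (hne : W ≠ []) (hb : ∀ W', W ≠ .b :: W') :
    (∃ W', nw β t W = .b :: W') ∨
      ((∀ W', nw β t W ≠ .b :: W') ∧ (nw β t W).length + 1 ≤ W.length) := by
  match W, hW, hne, hb with
  | .b :: W', _, _, hb => exact absurd rfl (hb W')
  | [.f], _, _, _ => cases t <;> cases β <;> simp [nw, rc, L.inv]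
  | [.n], _, _, _ => cases t <;> cases β <;> simp [nw, rc, L.inv]
  | .f :: .b :: W', hW, _, _ => exact absurd rfl hW.1
  | .f :: .n :: W', hW, _, _ => cases t <;> cases β <;> simp [nw, rc, L.inv]
  | .f :: .f :: W', hW, _, _ => cases t <;> cases β <;> simp [nw, rc, L.inv]
  | .n :: .n :: W', hW, _, _ => exact absurd rfl hW.1
  | .n :: .b :: W', hW, _, _ => cases t <;> cases β <;> simp [nw, rc, L.inv]
  | [.n, .f], hW, _, _ => cases t <;> cases β <;> simp [nw, rc, L.inv]
  | .n :: .f :: .b :: W', hW, _, _ => exact absurd rfl hW.2.1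
  | .n :: .f :: .n :: W', hW, _, _ => cases t <;> cases β <;> simp [nw, rc, L.inv]
  | .n :: .f :: .f :: W', hW, _, _ => cases t <;> cases β <;> simp [nw, rc, L.inv]

theorem pth_b (G : CG V) (z : V) (l : List Bool) : ∀ (t0 : Bool) (W0 : List L),
    Red (.b :: W0) →
    ∃ (t1 : Bool) (W1 : List L), walkF G l (t0, act G (.b :: W0) z) = (t1, act G (.b :: W1) z) ∧
      Red (.b :: W1) ∧ W1.length ≤ W0.length + 2 * l.length ∧ l.length + W0.length ≤ W1.length := by
  induction l with
  | nil => intro t0 W0 h; exact ⟨t0, W0, rfl, h, by simp, by simp⟩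
  | cons β l ih =>
    intro t0 W0 h
    simp only [walkF]
    rw [fwd_nw]
    have hr := red_nw (β := β) (t := t0) h
    rcases nw_b β t0 W0 with h1 | h1
    · rw [h1] at hr ⊢
      obtain ⟨t1, W1, h2, h3, h4, h5⟩ := ih (nt β t0) (.b :: W0) hr
      exact ⟨t1, W1, h2, h3, by simp at h4 ⊢; omega, by simp at h5 ⊢; omega⟩
    · rw [h1] at hr ⊢
      obtain ⟨t1, W1, h2, h3, h4, h5⟩ := ih (nt β t0) (.n :: .b :: W0) hr
      exact ⟨t1, W1, h2, h3, by simp at h4 ⊢; omega, by simp at h5 ⊢; omega⟩

theorem st_PTH : ST_PTH := by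
  intro V G Z z W0 t0 l hz
  induction l generalizing W0 t0 with
  | nil =>
    intro hW hav
    refine ⟨t0, W0, rfl, hW, by simp, fun hl => ?_⟩
    exfalso
    have : W0 = [] := by
      apply List.eq_nil_of_length_eq_zero
      simpa using hl
    subst this
    simp only [avoidF, act_nil] at hav
    rw [hz] at hav
    exact absurd hav (by simp)
  | cons β l ih =>
    intro hW hav
    simp only [avoidF] at hav
    have hne : W0 ≠ [] := by
      rintro rfl
      have := hav.1
      simp only [act_nil] at this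
      rw [hz] at this
      exact absurd this (by simp)
    by_cases hb : ∃ W', W0 = .b :: W'
    · obtain ⟨W', rfl⟩ := hb
      obtain ⟨t1, W1, h2, h3, h4, h5⟩ := pth_b G z (β :: l) t0 W' hW
      refine ⟨t1, .b :: W1, h2, h3, by simp at h4 ⊢; omega, fun _ => ⟨⟨W1, rfl⟩, ?_⟩⟩
      simp at h5 ⊢; omega
    · push Not at hb
      have hr := red_nw (β := β) (t := t0) hW
      have hl := length_nw β t0 W0
      simp only [walkF]
      have hav2 := hav.2
      rw [fwd_nw] at hav2 ⊢
      rcases nw_other β t0 W0 hW hne hb with ⟨W', hW'⟩ | ⟨hnb, hlen⟩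
      · rw [hW'] at hr hl ⊢
        obtain ⟨t1, W1, h2, h3, h4, h5⟩ := pth_b G z l (nt β t0) W' hr
        refine ⟨t1, .b :: W1, h2, h3, by simp at h4 hl ⊢; omega, fun _ => ⟨⟨W1, rfl⟩, ?_⟩⟩
        simp at h5 ⊢; omega
      · obtain ⟨t1, W1, h2, h3, h4, h5⟩ := ih (nw β t0 W0) (nt β t0) hr hav2
        refine ⟨t1, W1, h2, h3, by simp at h4 ⊢; omega, fun hle => ?_⟩
        obtain ⟨h6, h7⟩ := h5 (by simp at hle; omega)
        exact ⟨h6, by simp; omega⟩

end Pool.Agent.Helper86.TC8
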